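import Pool.Agent.helper44.DM.ZG
import Pool.Agent.helper78.ED.Defs2

/-! # Project ED, module XR: the factor of the functional equation to the right of the critical
strip -/

set_option autoImplicit false

open Complex MeasureTheory

namespace Pool.Agent.helper78.ED

open Pool.Agent.helper84.DM

theorem X_rec {s : ℂ} (hs : 0 < s.re) :
    X (s + 2) = -(s * (s + 1) / (4 * (Real.pi : ℂ) ^ 2)) * X s := by
  have hs0 : s ≠ 0 := by rintro rfl; simp at hs
  have hs1 : s + 1 ≠ 0 := by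
    intro h
    have := congrArg Complex.re h
    simp at this
    linarith
  have hG : Complex.Gamma (s + 2) = (s + 1) * (s * Complex.Gamma s) := by
    rw [show s + 2 = (s + 1) + 1 by ring, Complex.Gamma_add_one _ hs1, Complex.Gamma_add_one _ hs0]
  have hc : Complex.cos ((Real.pi : ℂ) * (s + 2) / 2) = -Complex.cos ((Real.pi : ℂ) * s / 2) := by
    rw [show (Real.pi : ℂ) * (s + 2) / 2 = (Real.pi : ℂ) * s / 2 + Real.pi by ring,
      Complex.cos_add_pi]
  have hπ : (2 * (Real.pi : ℂ)) ≠ 0 := by simp [Real.pi_ne_zero]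
  have hp : (2 * (Real.pi : ℂ)) ^ (-(s + 2)) =
      (2 * (Real.pi : ℂ)) ^ (-s) / (4 * (Real.pi : ℂ) ^ 2) := by
    have h2 : (2 * (Real.pi : ℂ)) ^ (2 : ℂ) = (2 * (Real.pi : ℂ)) ^ 2 := by
      exact_mod_cast Complex.cpow_natCast (2 * (Real.pi : ℂ)) 2
    rw [show -(s + 2) = -s - 2 by ring, Complex.cpow_sub _ _ hπ, h2, mul_pow]
    norm_num
  unfold X
  rw [hG, hc, hp]
  ring

lemma XR_norm_rec {s : ℂ} (hs : 0 < s.re) : ‖X (s + 2)‖ ≤ ‖s‖ * ‖s + 1‖ * ‖X s‖ := by
  rw [X_rec hs, norm_mul, norm_neg, norm_div, norm_mul]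
  refine mul_le_mul_of_nonneg_right ?_ (norm_nonneg _)
  refine div_le_self (mul_nonneg (norm_nonneg _) (norm_nonneg _)) ?_
  rw [norm_mul, norm_pow, Complex.norm_real, Real.norm_eq_abs, sq_abs]
  have h1 := Real.pi_gt_three
  norm_num
  nlinarith

lemma XR_norm_le {s : ℂ} {A : ℝ} (hA : 1 ≤ A) (h0 : 0 ≤ s.re) (h1 : s.re ≤ A) :
    ‖s‖ ≤ A * (1 + |s.im|) := by
  refine (Complex.norm_le_abs_re_add_abs_im s).trans ?_
  rw [abs_of_nonneg h0]
  nlinarith [abs_nonneg s.im]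

theorem X_line (k : ℕ) : ∃ C : ℝ, 0 < C ∧ ∀ y : ℝ,
    ‖X (((k + 1 / 2 : ℝ) : ℂ) + y * I)‖ ≤ C * (1 + |y|) ^ k := by
  induction k using Nat.twoStepInduction with
  | zero =>
    refine ⟨1, one_pos, fun y => ?_⟩
    have e : ((((0 : ℕ) : ℝ) + 1 / 2 : ℝ) : ℂ) = (1 / 2 : ℂ) := by push_cast; ring
    rw [e, X_half, pow_zero, mul_one]
  | one =>
    refine ⟨1, one_pos, fun y => ?_⟩
    have e : ((((1 : ℕ) : ℝ) + 1 / 2 : ℝ) : ℂ) = (3 / 2 : ℂ) := by push_cast; ring
    rw [e, X_three_half, pow_one, one_mul]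
    refine (div_le_self (norm_nonneg _) ?_).trans ?_
    · linarith [Real.pi_gt_three]
    · refine (Complex.norm_le_abs_re_add_abs_im _).trans ?_
      simp
      norm_num
  | more k ih _ =>
    obtain ⟨C, hC, h⟩ := ih
    refine ⟨(k + 1) * (k + 2) * C, by positivity, fun y => ?_⟩
    set s : ℂ := ((k + 1 / 2 : ℝ) : ℂ) + y * I with hs
    have hre : s.re = k + 1 / 2 := by rw [hs]; simp
    have him : s.im = y := by rw [hs]; simp
    have e : ((((k + 2 : ℕ) : ℝ) + 1 / 2 : ℝ) : ℂ) + y * I = s + 2 := by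
      rw [hs]; push_cast; ring
    have hk : (0 : ℝ) ≤ k := Nat.cast_nonneg k
    rw [e]
    refine (XR_norm_rec (by rw [hre]; linarith)).trans ?_
    have h1 : ‖s‖ ≤ (k + 1) * (1 + |y|) := by
      rw [← him]
      exact XR_norm_le (by linarith) (by rw [hre]; linarith) (by rw [hre]; linarith)
    have h2 : ‖s + 1‖ ≤ (k + 2) * (1 + |y|) := by
      have him1 : (s + 1).im = y := by simp [him]
      have hre1 : (s + 1).re = k + 1 / 2 + 1 := by simp [hre]
      rw [← him1]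
      exact XR_norm_le (by linarith) (by rw [hre1]; linarith) (by rw [hre1]; linarith)
    calc ‖s‖ * ‖s + 1‖ * ‖X s‖ ≤ ((k + 1) * (1 + |y|)) * ((k + 2) * (1 + |y|)) *
          (C * (1 + |y|) ^ k) := by
          gcongr
          exact h y
      _ = (k + 1) * (k + 2) * C * (1 + |y|) ^ (k + 2) := by ring

lemma XR_base {s : ℂ} (h1 : 1 / 2 ≤ s.re) (h2 : s.re ≤ 5 / 2) :
    ‖X s‖ ≤ 16 * (1 + |s.im|) ^ 2 := by
  have h3 : ‖s + 1‖ ≤ 4 * (1 + |s.im|) := by
    have h4 := XR_norm_le (s := s + 1) (A := 4) (by norm_num) (by simp; linarith)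
      (by simp; linarith)
    simpa using h4
  have h0 := abs_nonneg s.im
  rcases le_total s.re (3 / 2) with h | h
  · refine (XB_left h1 h).trans (h3.trans ?_)
    nlinarith
  · refine (XB_right h h2).trans ?_
    calc ‖s + 1‖ ^ 2 ≤ (4 * (1 + |s.im|)) ^ 2 := pow_le_pow_left₀ (norm_nonneg _) h3 2
      _ = 16 * (1 + |s.im|) ^ 2 := by ring

theorem X_strip (k : ℕ) : ∃ C : ℝ, 0 < C ∧ ∀ s : ℂ, 1 / 2 ≤ s.re → s.re ≤ k + 1 / 2 →
    ‖X s‖ ≤ C * (1 + |s.im|) ^ (k + 2) := by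
  have hb : ∀ (k : ℕ) (s : ℂ), 1 / 2 ≤ s.re → s.re ≤ 5 / 2 →
      ‖X s‖ ≤ 16 * (1 + |s.im|) ^ (k + 2) := by
    intro k s h1 h2
    refine (XR_base h1 h2).trans ?_
    have h0 := abs_nonneg s.im
    exact mul_le_mul_of_nonneg_left (pow_le_pow_right₀ (by linarith) (by omega)) (by norm_num)
  induction k using Nat.twoStepInduction with
  | zero => exact ⟨16, by norm_num, fun s h1 h2 => hb 0 s h1 (by push_cast at h2; linarith)⟩
  | one => exact ⟨16, by norm_num, fun s h1 h2 => hb 1 s h1 (by push_cast at h2; linarith)⟩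
  | more k ih _ =>
    obtain ⟨C, hC, h⟩ := ih
    refine ⟨16 + (k + 1) * (k + 2) * C, by positivity, fun s h1 h2 => ?_⟩
    have hk : (0 : ℝ) ≤ k := Nat.cast_nonneg k
    have h0 := abs_nonneg s.im
    have hp : 0 ≤ (1 + |s.im|) ^ (k + 2 + 2) := by positivity
    rcases le_total s.re (5 / 2) with h3 | h3
    · refine (hb (k + 2) s h1 h3).trans ?_
      refine mul_le_mul_of_nonneg_right ?_ hp
      have : 0 ≤ ((k : ℝ) + 1) * (k + 2) * C := by positivity
      linarith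
    · set z := s - 2 with hz
      have e : s = z + 2 := by rw [hz]; ring
      have hre : z.re = s.re - 2 := by rw [hz]; simp
      have him : z.im = s.im := by rw [hz]; simp
      push_cast at h2
      have h4 := h z (by rw [hre]; linarith) (by rw [hre]; linarith)
      rw [him] at h4
      have h5 : ‖z‖ ≤ (k + 1) * (1 + |s.im|) := by
        rw [← him]
        exact XR_norm_le (by linarith) (by rw [hre]; linarith) (by rw [hre]; linarith)
      have h6 : ‖z + 1‖ ≤ (k + 2) * (1 + |s.im|) := by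
        have him1 : (z + 1).im = s.im := by simp [him]
        have hre1 : (z + 1).re = s.re - 1 := by simp [hre]; ring
        rw [← him1]
        exact XR_norm_le (by linarith) (by rw [hre1]; linarith) (by rw [hre1]; linarith)
      calc ‖X s‖ = ‖X (z + 2)‖ := by rw [← e]
        _ ≤ ‖z‖ * ‖z + 1‖ * ‖X z‖ := XR_norm_rec (by rw [hre]; linarith)
        _ ≤ ((k + 1) * (1 + |s.im|)) * ((k + 2) * (1 + |s.im|)) *
            (C * (1 + |s.im|) ^ (k + 2)) := by gcongr
        _ = (k + 1) * (k + 2) * C * (1 + |s.im|) ^ (k + 2 + 2) := by ring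
        _ ≤ (16 + (k + 1) * (k + 2) * C) * (1 + |s.im|) ^ (k + 2 + 2) :=
            mul_le_mul_of_nonneg_right (by linarith) hp

theorem zeta_strip (k : ℕ) : ∃ C : ℝ, 0 < C ∧ ∀ s : ℂ, -(k : ℝ) ≤ s.re → 1 ≤ |s.im| →
    ‖riemannZeta s‖ ≤ C * |s.im| ^ (k + 3) := by
  obtain ⟨C₁, hC₁, hp⟩ := zeta_poly
  obtain ⟨C₂, hC₂, hX⟩ := X_strip (k + 1)
  obtain ⟨C₃, hC₃, hr⟩ := zeta_right
  refine ⟨C₁ + C₂ * 2 ^ (k + 3) * Real.exp C₃, by positivity, fun s h1 h2 => ?_⟩
  have hk : (0 : ℝ) ≤ k := Nat.cast_nonneg k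
  have hpos : 0 ≤ |s.im| ^ (k + 3) := by positivity
  rcases le_total (-1) s.re with h | h
  · refine (hp s h h2).trans ?_
    have h3 : |s.im| ^ 3 ≤ |s.im| ^ (k + 3) := pow_le_pow_right₀ h2 (by omega)
    have h4 : 0 ≤ C₂ * 2 ^ (k + 3) * Real.exp C₃ := by positivity
    calc C₁ * |s.im| ^ 3 ≤ C₁ * |s.im| ^ (k + 3) := mul_le_mul_of_nonneg_left h3 hC₁.le
      _ ≤ _ := mul_le_mul_of_nonneg_right (by linarith) hpos
  · set z := 1 - s with hz
    have hre : z.re = 1 - s.re := by rw [hz]; simp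
    have him : |z.im| = |s.im| := by rw [hz]; simp
    have hz1 : z ≠ 1 := by
      intro h3
      have h4 : z.re = 1 := by rw [h3]; simp
      rw [hre] at h4
      linarith
    have e : s = 1 - z := by rw [hz]; ring
    have h3 : ‖X z‖ ≤ C₂ * (1 + |s.im|) ^ (k + 1 + 2) := by
      rw [← him]
      exact hX z (by rw [hre]; linarith) (by rw [hre]; push_cast; linarith)
    have h4 := (hr z (by rw [hre]; linarith)).2
    have h5 : (1 + |s.im|) ^ (k + 3) ≤ 2 ^ (k + 3) * |s.im| ^ (k + 3) := by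
      rw [← mul_pow]
      exact pow_le_pow_left₀ (by linarith) (by linarith) _
    calc ‖riemannZeta s‖ = ‖riemannZeta (1 - z)‖ := by rw [← e]
      _ = ‖X z‖ * ‖riemannZeta z‖ := by
          rw [zeta_one_sub z (by rw [hre]; linarith) hz1, norm_mul]
      _ ≤ (C₂ * (1 + |s.im|) ^ (k + 3)) * Real.exp C₃ := by
          refine mul_le_mul ?_ h4 (norm_nonneg _) (by positivity)
          exact h3
      _ ≤ (C₂ * (2 ^ (k + 3) * |s.im| ^ (k + 3))) * Real.exp C₃ := by gcongr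
      _ = C₂ * 2 ^ (k + 3) * Real.exp C₃ * |s.im| ^ (k + 3) := by ring
      _ ≤ _ := mul_le_mul_of_nonneg_right (by linarith) hpos

end Pool.Agent.helper78.ED
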