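import Pool.Agent.helper52.ED.Spec

/-!
# Project ed: module PC2 (two point form of the weak inequality of Pick)
-/

set_option autoImplicit false

open Complex Metric Set Filter Topology MeasureTheory
open Pool.Agent.helper98.ILF Pool.Agent.helper16.Multibrot HY

noncomputable section

namespace ED

theorem PC2 (hPCK : PCK_stmt) (hMOB : HY.MOB_stmt) (hHDI : HY.HDI_stmt) : PC2_stmt := by
  obtain ⟨C, p, hC, hp, h⟩ := hPCK
  refine ⟨C, p, hC, hp, ?_⟩
  intro j hj a ha y hy hjy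
  have hja : j a ∈ UD := hj.map ha
  obtain ⟨hMa, -, hS0, -, hSd, -, hSi, -, -, -, hSder, -⟩ := hMOB a ha
  obtain ⟨hMb, hTb, -, hTbd, -, hTbi, -, -, -, -, -, -⟩ := hMOB (j a) hja
  have hSm : MapsTo (S a) UD UD := fun x hx => (hMa x hx).2.1
  have hTm : MapsTo (T (j a)) UD UD := fun x hx => (hMb x hx).1
  have h0 : (0 : ℂ) ∈ UD := by
    change (0 : ℂ) ∈ ball (0 : ℂ) 1
    exact mem_ball_self one_pos
  have hJ : UN (fun z => T (j a) (j (S a z))) := by
    refine ⟨?_, ?_, ?_⟩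
    · exact hTbd.comp (hj.dif.comp hSd hSm) (hj.map.comp hSm)
    · exact hTbi.comp (hj.inj.comp hSi hSm) (hj.map.comp hSm)
    · exact hTm.comp (hj.map.comp hSm)
  have hJ0 : (fun z => T (j a) (j (S a z))) 0 = 0 := by
    change T (j a) (j (S a 0)) = 0
    rw [hS0, hTb]
  have hz : T a y ∈ UD := (hMa y hy).1
  have hSz : S a (T a y) = y := (hMa y hy).2.2.1
  have h1 := h _ hJ hJ0 (T a y) hz (by
    change 1 / 2 ≤ ‖T (j a) (j (S a (T a y)))‖
    rw [hSz]
    exact hjy)
  have h2 : ‖deriv (fun z => T (j a) (j (S a z))) 0‖ = hd j a * (1 - ‖a‖ ^ 2) := by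
    have hUDo : IsOpen UD := isOpen_ball
    have hSd0 : DifferentiableAt ℂ (S a) 0 := hSd.differentiableAt (hUDo.mem_nhds h0)
    have hjd : DifferentiableAt ℂ j (S a 0) := by
      rw [hS0]
      exact hj.dif.differentiableAt (hUDo.mem_nhds ha)
    have hcomp : DifferentiableAt ℂ (fun z => j (S a z)) 0 := hjd.comp (0 : ℂ) hSd0
    have e1 := (hHDI.1 (j a) (fun z => j (S a z)) 0 hja hcomp (by
      change j (S a 0) ∈ UD
      rw [hS0]
      exact hja)).1
    have e2 : hd (fun z => T (j a) (j (S a z))) 0 =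
        ‖deriv (fun z => T (j a) (j (S a z))) 0‖ := by
      unfold hd
      rw [hJ0, norm_zero]
      norm_num
    have e3 : hd (fun z => j (S a z)) 0 = hd j a * (1 - ‖a‖ ^ 2) := by
      have e4 : deriv (fun z => j (S a z)) 0 = deriv j (S a 0) * deriv (S a) 0 :=
        deriv_comp (0 : ℂ) hjd hSd0
      have e8 : (fun z => j (S a z)) 0 = j a := by
        change j (S a 0) = j a
        rw [hS0]
      unfold hd
      rw [e4, e8, hS0, hSder, norm_mul]
      have e5 : ‖(1 : ℂ) - (‖a‖ : ℂ) ^ 2‖ = 1 - ‖a‖ ^ 2 := by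
        have e6 : (1 : ℂ) - (‖a‖ : ℂ) ^ 2 = ((1 - ‖a‖ ^ 2 : ℝ) : ℂ) := by push_cast; ring
        have e7 : ‖a‖ < 1 := by
          have := mem_ball_zero_iff.1 ha
          exact this
        rw [e6, Complex.norm_real, Real.norm_of_nonneg]
        nlinarith [norm_nonneg a]
      rw [e5]
      ring
    rw [← e2, e1, e3]
  rw [h2] at h1
  rw [hSz] at h1
  exact h1

end ED
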