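import Pool.Agent.helper63.ED.PW
import Pool.Agent.helper78.ED.Defs2
import Pool.Agent.helper18.DM.MV

/-! # Project ED, module S6: the sixth moment of a partial sum of the zeta series -/

set_option autoImplicit false

open Complex MeasureTheory

namespace Pool.Agent.helper78.ED

open Pool.Agent.helper84.DM

/-- coefficients of a product. -/
lemma S6_conv (I J : Finset ℕ) (b : ℕ → ℂ) {m : ℕ} (hm : 0 < m) {B : ℝ} (hB : 0 ≤ B)
    (hb : ∀ n, n ∣ m → ‖b n‖ ≤ B) :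
    ‖∑ p ∈ (I ×ˢ J).filter (fun p => p.1 * p.2 = m), (1 : ℂ) * b p.2‖ ≤ d m * B := by
  have hcard : (((I ×ˢ J).filter (fun p => p.1 * p.2 = m)).card : ℝ) ≤ d m := by
    unfold d
    have : ((I ×ˢ J).filter (fun p => p.1 * p.2 = m)).card ≤ m.divisors.card := by
      refine Finset.card_le_card_of_injOn (fun p => p.1) ?_ ?_
      · intro p hp
        have h2 := (Finset.mem_filter.1 hp).2
        rw [Finset.mem_coe, Nat.mem_divisors]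
        exact ⟨⟨p.2, h2.symm⟩, by omega⟩
      · intro p hp q hq hpq
        have h2 := (Finset.mem_filter.1 hp).2
        have h3 := (Finset.mem_filter.1 hq).2
        have hpq' : p.1 = q.1 := hpq
        have hp1 : 0 < p.1 := by
          rcases Nat.eq_zero_or_pos p.1 with h | h
          · rw [h, zero_mul] at h2; omega
          · exact h
        have h4 : p.1 * p.2 = p.1 * q.2 := by rw [h2, hpq', h3]
        exact Prod.ext hpq' (Nat.eq_of_mul_eq_mul_left hp1 h4)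
    exact_mod_cast this
  calc ‖∑ p ∈ (I ×ˢ J).filter (fun p => p.1 * p.2 = m), (1 : ℂ) * b p.2‖
      ≤ ∑ p ∈ (I ×ˢ J).filter (fun p => p.1 * p.2 = m), ‖(1 : ℂ) * b p.2‖ := norm_sum_le _ _
    _ ≤ ∑ p ∈ (I ×ˢ J).filter (fun p => p.1 * p.2 = m), B := by
        refine Finset.sum_le_sum fun p hp => ?_
        rw [one_mul]
        exact hb _ ⟨p.1, by rw [mul_comm]; exact ((Finset.mem_filter.1 hp).2).symm⟩
    _ = (((I ×ˢ J).filter (fun p => p.1 * p.2 = m)).card : ℝ) * B := by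
        rw [Finset.sum_const, nsmul_eq_mul]
    _ ≤ d m * B := mul_le_mul_of_nonneg_right hcard hB

/-- the cube of the partial sum. -/
lemma S6_cube (K : ℕ) : ∃ b : ℕ → ℂ, (∀ m, 0 < m → ‖b m‖ ≤ d m ^ 2) ∧ ∀ s : ℂ,
    (∑ n ∈ Finset.Icc 1 K, (n : ℂ) ^ (-s)) ^ 3 = ∑ m ∈ Finset.Icc 1 (K ^ 3), b m * (m : ℂ) ^ (-s) := by
  set I := Finset.Icc 1 K with hI
  set J := Finset.Icc 1 (K ^ 2) with hJ
  set b₂ : ℕ → ℂ := fun m => ∑ p ∈ (I ×ˢ I).filter (fun p => p.1 * p.2 = m), (1 : ℂ) * 1 with hb₂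
  have h2 : ∀ m, 0 < m → ‖b₂ m‖ ≤ d m := by
    intro m hm
    have := S6_conv I I (fun _ => (1 : ℂ)) hm zero_le_one (fun n _ => by simp)
    exact this.trans (le_of_eq (mul_one _))
  refine ⟨fun m => ∑ p ∈ (I ×ˢ J).filter (fun p => p.1 * p.2 = m), (1 : ℂ) * b₂ p.2, ?_, ?_⟩
  · intro m hm
    have h3 := S6_conv I J b₂ hm (PW_d_nonneg m) (fun n hn => by
      have hn0 : 0 < n := Nat.pos_of_dvd_of_pos hn hm
      exact (h2 n hn0).trans (PW_d_dvd hn hm.ne'))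
    rw [pow_two]
    exact h3
  · intro s
    have e1 : (∑ n ∈ I, (n : ℂ) ^ (-s)) = ∑ n ∈ I, (1 : ℂ) * (n : ℂ) ^ (-s) :=
      Finset.sum_congr rfl fun n _ => (one_mul _).symm
    have m1 : ∀ p ∈ I ×ˢ I, p.1 * p.2 ∈ J := by
      intro p hp
      rw [Finset.mem_product, hI, Finset.mem_Icc, Finset.mem_Icc] at hp
      rw [hJ, Finset.mem_Icc, pow_two]
      exact ⟨Nat.mul_pos hp.1.1 hp.2.1, Nat.mul_le_mul hp.1.2 hp.2.2⟩
    have m2 : ∀ p ∈ I ×ˢ J, p.1 * p.2 ∈ Finset.Icc 1 (K ^ 3) := by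
      intro p hp
      rw [Finset.mem_product, hI, hJ, Finset.mem_Icc, Finset.mem_Icc] at hp
      rw [Finset.mem_Icc]
      refine ⟨Nat.mul_pos hp.1.1 hp.2.1, ?_⟩
      calc p.1 * p.2 ≤ K * K ^ 2 := Nat.mul_le_mul hp.1.2 hp.2.2
        _ = K ^ 3 := by ring
    have h3 := PW_mul I I J (fun _ => (1 : ℂ)) (fun _ => 1) m1 s
    have h4 := PW_mul I J (Finset.Icc 1 (K ^ 3)) (fun _ => (1 : ℂ)) b₂ m2 s
    rw [← h4, ← h3, e1]
    ring

theorem sixth (ε : ℝ) (hε : 0 < ε) : ∃ C : ℝ, 0 < C ∧ ∀ T : ℝ, 2 ≤ T → ∀ K : ℕ, 1 ≤ K →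
    (K : ℝ) ≤ T → ∫ u in (0 : ℝ)..(2 * T), DK K u ^ 6 ≤ C * T ^ ε * (T + (K : ℝ) ^ 3) := by
  set κ : ℝ := min (ε / 30) 1 with hκ
  have hκ0 : 0 < κ := lt_min (by positivity) one_pos
  have hκ1 : κ ≤ 1 := min_le_right _ _
  have hκε : 30 * κ ≤ ε := by
    have := min_le_left (ε / 30) 1
    rw [← hκ] at this
    linarith
  obtain ⟨C₁, hC₁, hmv⟩ := mv κ hκ0 hκ1
  obtain ⟨C₂, hC₂, hd⟩ := divisor_bound κ hκ0
  refine ⟨C₂ ^ 4 * (2 * (1 + 3 / κ) + C₁), by positivity, fun T hT K hK hKT => ?_⟩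
  have hT0 : 0 < T := by linarith
  have hT1 : 1 ≤ T := by linarith
  obtain ⟨b, hb, hcube⟩ := S6_cube K
  set a : ℕ → ℂ := fun m => b m * (m : ℂ) ^ (-(1 / 2 : ℂ)) with ha
  have e1 : ∀ u : ℝ, DK K u ^ 6 = ‖∑ m ∈ Finset.Icc 1 (K ^ 3), a m * (m : ℂ) ^ (-(u * I))‖ ^ 2 := by
    intro u
    have h1 : ∑ m ∈ Finset.Icc 1 (K ^ 3), a m * (m : ℂ) ^ (-(u * I)) =
        (∑ n ∈ Finset.Icc 1 K, (n : ℂ) ^ (-((1 / 2 : ℂ) + u * I))) ^ 3 := by
      rw [hcube]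
      refine Finset.sum_congr rfl fun m hm => ?_
      have hm0 : (m : ℂ) ≠ 0 := by
        have := (Finset.mem_Icc.1 hm).1
        exact_mod_cast (by omega : m ≠ 0)
      rw [ha]
      simp only
      rw [neg_add, Complex.cpow_add _ _ hm0, mul_assoc]
    rw [h1, DK, norm_pow, ← pow_mul]
  have h1 : ∫ u in (0 : ℝ)..(2 * T), DK K u ^ 6 ≤
      ∑ m ∈ Finset.Icc 1 (K ^ 3), ‖a m‖ ^ 2 * (2 * T + C₁ * (m : ℝ) ^ (1 + κ)) := by
    have h2 := hmv (Finset.Icc 1 (K ^ 3)) a 0 (2 * T) (by simp) (by linarith)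
    rw [zero_add] at h2
    rw [intervalIntegral.integral_congr (g := fun u : ℝ =>
      ‖∑ m ∈ Finset.Icc 1 (K ^ 3), a m * (m : ℂ) ^ (-(u * I))‖ ^ 2) fun u _ => e1 u]
    exact h2
  refine h1.trans ?_
  have hK0 : (0 : ℝ) < K := by exact_mod_cast hK
  have hterm : ∀ m ∈ Finset.Icc 1 (K ^ 3), ‖a m‖ ^ 2 * (2 * T + C₁ * (m : ℝ) ^ (1 + κ)) ≤
      C₂ ^ 4 * T ^ (12 * κ) * (2 * T * (1 / (m : ℝ)) + C₁ * T ^ (3 * κ)) := by
    intro m hm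
    rw [Finset.mem_Icc] at hm
    have hm0 : (0 : ℝ) < m := by exact_mod_cast hm.1
    have hmT : (m : ℝ) ≤ T ^ 3 := by
      calc (m : ℝ) ≤ (K : ℝ) ^ 3 := by exact_mod_cast hm.2
        _ ≤ T ^ 3 := pow_le_pow_left₀ hK0.le hKT 3
    have h3 : (m : ℝ) ^ κ ≤ T ^ (3 * κ) := by
      rw [Real.rpow_mul hT0.le]
      refine Real.rpow_le_rpow hm0.le ?_ hκ0.le
      exact_mod_cast hmT
    have h4 : ‖a m‖ ^ 2 ≤ C₂ ^ 4 * T ^ (12 * κ) * (1 / (m : ℝ)) := by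
      have h5 : ‖a m‖ = ‖b m‖ * (m : ℝ) ^ (-(1 / 2) : ℝ) := by
        rw [ha]
        simp only
        rw [norm_mul, Complex.norm_natCast_cpow_of_pos hm.1]
        norm_num
      have h6 : ((m : ℝ) ^ (-(1 / 2) : ℝ)) ^ 2 = 1 / m := by
        rw [← Real.rpow_natCast, ← Real.rpow_mul hm0.le]
        norm_num [Real.rpow_neg_one]
      have h7 : d m ≤ C₂ * T ^ (3 * κ) :=
        (hd m hm.1).trans (mul_le_mul_of_nonneg_left h3 hC₂.le)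
      rw [h5, mul_pow, h6]
      refine mul_le_mul_of_nonneg_right ?_ (by positivity)
      calc ‖b m‖ ^ 2 ≤ (d m ^ 2) ^ 2 := pow_le_pow_left₀ (norm_nonneg _) (hb m hm.1) 2
        _ = d m ^ 4 := by ring
        _ ≤ (C₂ * T ^ (3 * κ)) ^ 4 := pow_le_pow_left₀ (PW_d_nonneg m) h7 4
        _ = C₂ ^ 4 * T ^ (12 * κ) := by
            rw [mul_pow, ← Real.rpow_natCast (T ^ (3 * κ)), ← Real.rpow_mul hT0.le]
            congr 2
            push_cast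
            ring
    have h8 : (m : ℝ) ^ (1 + κ) ≤ m * T ^ (3 * κ) := by
      rw [Real.rpow_add hm0, Real.rpow_one]
      exact mul_le_mul_of_nonneg_left h3 hm0.le
    calc ‖a m‖ ^ 2 * (2 * T + C₁ * (m : ℝ) ^ (1 + κ))
        ≤ (C₂ ^ 4 * T ^ (12 * κ) * (1 / (m : ℝ))) * (2 * T + C₁ * (m * T ^ (3 * κ))) := by
          gcongr
      _ = C₂ ^ 4 * T ^ (12 * κ) * (2 * T * (1 / (m : ℝ)) + C₁ * T ^ (3 * κ)) := by
          field_simp
  refine (Finset.sum_le_sum hterm).trans ?_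
  rw [← Finset.mul_sum, Finset.sum_add_distrib, ← Finset.mul_sum, Finset.sum_const, Nat.card_Icc,
    nsmul_eq_mul]
  have hharm : ∑ m ∈ Finset.Icc 1 (K ^ 3), 1 / (m : ℝ) ≤ (1 + 3 / κ) * T ^ κ := by
    have h2 : ∑ m ∈ Finset.Icc 1 (K ^ 3), 1 / (m : ℝ) ≤ 1 + Real.log ((K ^ 3 : ℕ) : ℝ) := by
      have h3 := harmonic_le_one_add_log (K ^ 3)
      rw [harmonic_eq_sum_Icc] at h3
      push_cast at h3
      refine le_trans (le_of_eq ?_) (by exact_mod_cast h3)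
      exact Finset.sum_congr rfl fun m _ => one_div _
    have h4 : Real.log ((K ^ 3 : ℕ) : ℝ) ≤ 3 * (T ^ κ / κ) := by
      push_cast
      rw [Real.log_pow]
      have h5 : Real.log K ≤ Real.log T := Real.log_le_log hK0 hKT
      have h6 := Real.log_le_rpow_div hT0.le hκ0
      push_cast
      linarith
    have h7 : 1 ≤ T ^ κ := Real.one_le_rpow hT1 hκ0.le
    have e : (1 + 3 / κ) * T ^ κ = T ^ κ + 3 * (T ^ κ / κ) := by ring
    rw [e]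
    linarith
  have hTk : T ^ κ ≤ T ^ (3 * κ) := Real.rpow_le_rpow_of_exponent_le hT1 (by linarith)
  have hT15 : T ^ (12 * κ) * T ^ (3 * κ) ≤ T ^ ε := by
    rw [← Real.rpow_add hT0]
    exact Real.rpow_le_rpow_of_exponent_le hT1 (by linarith)
  have hcard : (((K ^ 3 + 1 - 1 : ℕ)) : ℝ) = (K : ℝ) ^ 3 := by
    rw [Nat.add_sub_cancel]; push_cast; ring
  rw [hcard]
  have hT12 : 0 < T ^ (12 * κ) := Real.rpow_pos_of_pos hT0 _
  have hT3 : 0 < T ^ (3 * κ) := Real.rpow_pos_of_pos hT0 _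
  have hk3 : 0 < 3 / κ := by positivity
  have hK3 : 0 < (K : ℝ) ^ 3 := by positivity
  have hstep : 2 * T * (∑ m ∈ Finset.Icc 1 (K ^ 3), 1 / (m : ℝ)) + (K : ℝ) ^ 3 * (C₁ * T ^ (3 * κ)) ≤
      (2 * (1 + 3 / κ) + C₁) * T ^ (3 * κ) * (T + (K : ℝ) ^ 3) := by
    have h9 : 2 * T * (∑ m ∈ Finset.Icc 1 (K ^ 3), 1 / (m : ℝ)) ≤
        2 * T * ((1 + 3 / κ) * T ^ (3 * κ)) := by
      refine mul_le_mul_of_nonneg_left (hharm.trans ?_) (by linarith)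
      exact mul_le_mul_of_nonneg_left hTk (by linarith)
    have h10 : 0 ≤ 2 * (1 + 3 / κ) * T ^ (3 * κ) * (K : ℝ) ^ 3 := by positivity
    have h11 : 0 ≤ C₁ * T ^ (3 * κ) * T := by positivity
    have e : (2 * (1 + 3 / κ) + C₁) * T ^ (3 * κ) * (T + (K : ℝ) ^ 3) =
        2 * T * ((1 + 3 / κ) * T ^ (3 * κ)) + (K : ℝ) ^ 3 * (C₁ * T ^ (3 * κ)) +
        2 * (1 + 3 / κ) * T ^ (3 * κ) * (K : ℝ) ^ 3 + C₁ * T ^ (3 * κ) * T := by ring
    rw [e]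
    linarith
  calc C₂ ^ 4 * T ^ (12 * κ) * (2 * T * (∑ m ∈ Finset.Icc 1 (K ^ 3), 1 / (m : ℝ)) +
        (K : ℝ) ^ 3 * (C₁ * T ^ (3 * κ)))
      ≤ C₂ ^ 4 * T ^ (12 * κ) * ((2 * (1 + 3 / κ) + C₁) * T ^ (3 * κ) * (T + (K : ℝ) ^ 3)) :=
        mul_le_mul_of_nonneg_left hstep (by positivity)
    _ = C₂ ^ 4 * (2 * (1 + 3 / κ) + C₁) * (T ^ (12 * κ) * T ^ (3 * κ)) * (T + (K : ℝ) ^ 3) := by ring
    _ ≤ C₂ ^ 4 * (2 * (1 + 3 / κ) + C₁) * T ^ ε * (T + (K : ℝ) ^ 3) := by gcongr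

end Pool.Agent.helper78.ED
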